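import Pool.Agent.P.MP_5333ad_co.Lower

namespace Pool.Agent.Results.MP_5333ad_co.SharpConstant

open Pool.Agent.IsoStab

/-- The least stability factor is `2 √(d ⌊d/2⌋ ε)` up to lower order terms in `d √ε`,
uniformly in the dimension. -/
theorem result (d : ℕ) (hd : 1 ≤ d) (ε : ℝ) (hε : 0 < ε) :
    Stable d ε (min 1 (2 * Real.sqrt (d * ((d / 2 : ℕ) : ℝ) * ε) +
      32 * (d * Real.sqrt ε) ^ (3 / 2 : ℝ))) ∧
    ¬ Stable d ε (2 * Real.sqrt (d * ((d / 2 : ℕ) : ℝ) * ε) - 6 * (d * Real.sqrt ε) ^ 2) :=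
  ⟨upper hd hε, lower hd hε⟩

end Pool.Agent.Results.MP_5333ad_co.SharpConstant
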